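import Mathlib
import Pool.Agent.Run7.h879.HC.Bridge
import Pool.Agent.Y1.HZ.Betti
import Pool.Agent.Run7.h879.HC.Abs

/-!
# The absolute Hodge conjecture for the products of all varieties with abelian varieties of CM
# type:
# almost all CM types of all CM fields with few CM subfields, and of all CM fields whose degree
# has a large prime factor

Let `K i` be finitely many CM fields of degrees `2 g i`, pairwise independent: for `i ≠ k` and all
complex embeddings `φ` of `K i` and `ψ` of `K k` some automorphism of `ℂ` is the identity on `φ (K
i)` and the complex conjugation on `ψ (K k)` (this is no condition for one field). Nothing is
assumed about their Galois groups. There are `2 ^ (∑ g i)` families of CM types `Φ i` of the fields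
`K i`. Let `A` be a product of copies of the complex abelian varieties of the CM types `(K i, Φ i)`,
given by the inclusion `per Φ t` of its rational homology `W` in its tangent space.

The variety `Z` is *unrelated* to the fields `K i` (`UnrelatedHodge`): let `w ≠ 0` be a complex
cohomology class on `Z` such that for each automorphism `σ` of `ℂ` the conjugate `σ w` is of pure
type, a sum of classes of types `(p, q)` with `p - q = d σ`. For all such `w` a function `n` on the
complex embeddings of `K i` with `n (conj φ) = - n φ` which is invariant under all automorphisms `τ`
of `ℂ` with `d (σ τ) = d σ` for all `σ` is zero. So it is true for all CM fields if the cohomology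
of `Z` has no sub-Hodge structures with complex multiplication except those of type `(p, p)`. And it
is true (`BettiCriterion`, last part of the theorem) if all Betti numbers of `Z` are less than `2
dim S` for all nonzero spaces `S` of functions `n` with `n (conj φ) = - n φ` that are stable under
the automorphisms of `ℂ`; for a CM field of degree `2 g` with only one such space this is the
condition that **all Betti numbers of `Z` are less than `2 g`**, and nothing else is assumed about
`Z`: neither its Hodge classes nor their algebraicity or absoluteness are known.

The cohomology of `Z` is given by `V : Coh v` (starting files): it is a rational space with a basis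
of homogeneous elements and the Hodge operator `V.z`, which is the multiplication by `p - q` on the
classes of type `(p, q)`; `HAZ W v` is the cohomology of `A × Z` (the forms on the homology `W` of
`A` with values in the cohomology of `Z`), `IsHodgeOnProduct` says that a class is a Hodge class,
and `crossSpan` is the span of the classes `f ⊗ x`, `f` a combination of products of divisor classes
on `A` and `x` a Hodge class on `Z`.

**The property `Q`** (`AbsoluteTimes`) of a family of types: for all such `A` and **all** smooth
projective varieties `Z` unrelated to the fields `K i`

* every Hodge class on `A × Z` is in `crossSpan`;
* **all Hodge classes on `A × Z` are absolute Hodge classes if and only if all Hodge classes on `Z`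
  are absolute Hodge classes.**

Here there are two versions of the words *absolute Hodge class*, and the equivalence is proved for
both (for every `C : Conjugates`). Given are in `C` the conjugate varieties `A_σ`, `Z_σ`, a
cohomology `C.L σ` of `Z_σ` and of `A_σ × Z_σ` (`Components`), the map `C.c₀ σ` which sends a
rational class `v` on `Z` or on `A × Z` to the image of its component under `σ`, and the map `C.c σ`
which sends a rational class `v'` on `Z_σ` or on `A_σ × Z_σ` to its component. For Q1 the set `C.S`
of the indices `σ` consists of the automorphisms of `ℂ`, and `C.L σ` is the algebraic de Rham
cohomology: `C.c₀ σ v = (v^dR)_σ` and `C.c σ v' = (v')^dR`. For Q2 the set `C.S` consists of the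
pairs of an automorphism `σ` and a prime number `ℓ` (or of the automorphisms, for one fixed `ℓ`),
and `C.L σ` is the `ℓ`-adic cohomology: `C.c₀ σ v = (v^ℓ)_σ` and `C.c σ v' = (v')^ℓ`. So **the de
Rham part Q1 for `A × Z` is equivalent to Q1 for `Z`, and the `ℓ`-adic part Q2 for `A × Z` (for one
`ℓ`, or for all) is equivalent to Q2 for `Z`**; the same holds for the formulation of Deligne with
all components together. For instance both parts hold for `A × Z` if they hold for `Z`: for K3
surfaces and hyperkähler varieties of known type, cubic fourfolds, varieties of dimension at most
three, varieties with motive of abelian type.

Two properties of the maps are used: they are compatible with the restriction to the fibre over the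
origin; and (`SameCycles`) for a combination `f` of products of divisor classes on `A` there is one
on `A_σ` (the class of the conjugate cycle), `f'`, such that `f ⊗ x` and `f' ⊗ x'` have conjugate
components if `x` and `x'` have.

**The theorem** (`ForAlmostAll`). There is a constant `C` such that `Q` is true for all families of
types but at most `2 ^ (∑ g i) * ∑ C * rate (K i) (g i) (q i)`. Here `q i` is any prime factor of `g
i` (or `q i = 1`), and `rate K g q` is `(1 + log (2 g)) ^ 16` times the smaller of the numbers

* `W (K) / √g`, where (`WeightEstimate`) `W (K) ≤ N ^ 2 * D ^ (1 / 4)`; `N` is the number of the CM
  subfields of `K` (with `K`) and `D` is the largest degree of a CM subfield of `K` that is normal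
  over `ℚ` with a nonabelian Galois group (`D = 1` if there are none);
* `√g / q`.

So the exceptional types are a proportion `O (g ^ (-1 / 4) * (log g) ^ 16)` of all types of all CM
fields with a bounded number of CM subfields, and `O (g ^ (-1 / 2) * (log g) ^ 16)` if the normal
nonabelian ones have bounded degrees. And they are a proportion `O (g ^ (-δ) * (log g) ^ 16)` of the
types of all CM fields, with any number of subfields, whose degree is divisible by a prime number `q
≥ g ^ (1 / 2 + δ)`; for small `δ` there are such primes for about `log 2`, that is 69%, of all
numbers `g`.

The proof: if the types are not degenerate then all Hodge classes on `A × Z` are in `crossSpan`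
(`Y1/HZ` of the starting files, which was used there for the Hodge conjecture). It is shown here
that the products of combinations of products of divisor classes and of Hodge classes are Hodge
classes on the conjugate varieties, and that the fibre over the origin gives the converse. The bound
for the number of the degenerate types is the one of `AllCMFieldsTimes` (MP_e12fcd_ag) of the
starting files.

The number `W (K)` (`subfieldWeight K`): the automorphisms of `ℂ` act on the rational functions on
the set of the complex embeddings of `K` which change their sign under complex conjugation. A field
of definition (`fieldsOfDefinition K`) of an isotypic component is a smallest subfield `F` of `K`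
such that the values of the functions in the component depend only on the restrictions of the
embeddings to `F`. Then `W (K)` is the sum over these fields `F` of the number of the CM subfields
of `F`, multiplied by `[F : ℚ] ^ (1 / 4)` if `F` is normal over `ℚ` and its Galois group is not
abelian.
-/

set_option autoImplicit false

namespace Pool.Agent.Results.MP_e2e4f5_ag.AllCMFieldsTimes

open NumberField Module Pool.Agent.H204R3.CM Pool.Agent.H977R3.CM Pool.Agent.Y1.KN
  Pool.Agent.Y1.HZ Pool.Agent.Run7.h879.HC

/-- The property of the CM types `Φ i`. -/
def Q : CMProperty := fun _ _ _ _ _ _ Φ => AbsoluteTimes Φ

theorem notDegenerate : NotDegenerate Q := fun _ _ _ _ _ _ _ hind hΦ hnd =>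
  absoluteTimes_of_hodgeTimes (hodgeTimes_of_not_degenerate hΦ hind fun i =>
    not_degenerate (hΦ i) (hnd i))

/-- **The absolute Hodge conjecture for `A × Z` is equivalent to the one for `Z`:
almost all CM types of all CM fields with few CM subfields, and of all CM fields whose degree has a large prime factor.** -/
theorem result : ForAlmostAll Q ∧ WeightEstimate ∧ BettiCriterion :=
  ⟨forAlmostAll notDegenerate, weight_estimate_holds, bettiCriterion_holds⟩

end Pool.Agent.Results.MP_e2e4f5_ag.AllCMFieldsTimes
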