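import Pool.Agent.Run7.h306.AH1

/-!
# The absolute Hodge conjecture for the products of arbitrary varieties with Fermat varieties of large
# prime power degrees

Let `Z` be **any** smooth projective complex variety with Betti numbers at most `B` and of level at most
`D` (its cohomology is the sum of spaces `H^(p, q)` with `|p - q| ≤ D`; `D = dim Z` is possible), and let
`V` be a product of Fermat varieties `x_0 ^ m + ⋯ + x_(n+1) ^ m = 0`, of any dimensions, whose degrees
`m_j` are powers of prime numbers `p_j` (different or equal) with

  `p_j > C (B D ^ 2) ^ (1 + ε)` for all `j`,

where `C` depends only on `ε > 0`. Then

* all Hodge classes on `Z × V` are sums of products `x × ψ` of Hodge classes `x` on `Z` and Hodge classes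
  `ψ` on `V` whose components are in lines of algebraic classes (`IsGenerated`: Shioda, Aoki);
* **the de Rham part (Q1) of the absolute Hodge conjecture holds for `Z × V` if and only if it holds for
  `Z`;**
* **for each prime number `ℓ` the `ℓ`-adic part (Q2) holds for `Z × V` if and only if it holds for `Z`.**

There is no condition on the Mumford-Tate group of `Z`; neither the Hodge classes on `Z` nor their
algebraicity are known in general. Since `V` has as many factors, of as large dimensions, as we like,
this gives for each `Z` infinitely many families of varieties for which the question is reduced to the
one for `Z`.

## The definitions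

The cohomology of `Z` is given by `H : Coh v` (starting files): a rational space `ℚ ^ v` with a basis of
homogeneous elements and the Hodge operator `H.z`, which is the multiplication by `p - q` on the classes
of type `(p, q)`. The complex cohomology of a Fermat variety has the basis `Label`: the classes `h ^ i` of
the linear sections and a generator `e a` of the line `V(a)` for each character `a` of the primitive
cohomology; the generators are chosen such that the automorphisms `σ` of `ℂ` map `e a` to `e (t a)`, where
`σ` is the `t`-th power on the roots of unity (`Rational`), and `hodge` is the number `p - q` for the
elements of the basis. `IsHodgeClassTimes` says that a class on `Z × V` is rational and of type `(p, p)`.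

## The proof

Let `φ` be a Hodge class on `Z × V` and `b` a family of characters of `V` such that the coefficient `φ b`
(a class in the complex cohomology of `Z`) is not zero. Then `φ (t b)` is the conjugate of `φ b` by `σ`, so
the type of the conjugates of `φ b` is given by an odd function `T` of `t`, the product of an element of
the group ring with the Stickelberger element. So `|T| ≤ D`, and the classes `φ (t b)` with different
values of `T` and its translates are linearly independent, which bounds the dimension of the space of
functions generated by the translates of `T` by a Betti number of `Z`. All generalized Bernoulli
numbers of characters modulo `p ^ a` have the lower bound of Siegel; with Parseval's formula, used for `T`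
and for the element of the group ring, this gives `T = 0` or `c_ε p ^ (1 - ε) ≤ B D ^ 2`. So `T = 0`: the
family `b` is a Hodge character, it is generated by the characters of surfaces, pairs and standard
characters (theorem of the starting files for prime powers), and the span of the conjugates of `φ b` is
generated by Hodge classes of `Z`. (The constant `C` is not effective, because Siegel's theorem is used.)

The product `x × ψ` of a Hodge class `x` on `Z` whose conjugate components come from a Hodge class on
`Z^σ` and a class `ψ` of an algebraic cycle on `V` has the same property: the class of the conjugate cycle
gives `ψ'`. The converse is seen on the fibre over a point of `V`.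

Given are (`Conjugates`) the conjugates `Z^σ` for the automorphisms `σ` of `ℂ` (the elements of `C.S`; `V` is
defined over `ℚ`), the de Rham cohomology (for Q1: `dR`) or the `ℓ`-adic cohomology (for Q2: `et ℓ`)
`C.L σ` of `Z^σ` and of `Z^σ × V` (`Components`), the map `C.c₀ σ` which sends a rational class to its
conjugate in this cohomology, and the map `C.c σ` which sends a rational class on `Z^σ` or `Z^σ × V` to its
image in this cohomology. Two properties of these maps are used: they are compatible with the restriction
to the fibre over a point (`Comparison.res`), and (`SameCycles`) the conjugates of algebraic cycles on `V`
exist.
-/

set_option autoImplicit false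

namespace Pool.Agent.Results.MP_e2e4f5_ag.FermatTimesVarieties

open Pool.Agent.TH131.GHC Run7.h306.HF Run7.h306.AH

/-- **Both parts of the absolute Hodge conjecture for `Z × V` are equivalent to those for `Z`**, for all
varieties `Z` with Betti numbers at most `B` and of level at most `D`, and all products `V` of Fermat
varieties whose degrees are powers of prime numbers larger than `C₀ (B D ^ 2) ^ (1 + ε)`; and all Hodge
classes on `Z × V` are sums of products of Hodge classes on `Z` and algebraic classes on `V`. -/
theorem result (ε : ℝ) (hε : 0 < ε) : ∃ C₀ : ℝ, 0 < C₀ ∧
    ∀ (B D v : ℕ) (H : Coh v) (J : Type) [Fintype J] (m n : J → ℕ) [∀ j, NeZero (m j)],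
      IsBounded H B D → AreLargePrimePowers C₀ ε B D m →
        HodgeClassesAreProducts m n H ∧
          ∀ (dR : Conjugates m n v) (et : Nat.Primes → Conjugates m n v),
            (dR.AbsoluteTimes H ↔ dR.Absolute H) ∧
              ∀ ℓ, ((et ℓ).AbsoluteTimes H ↔ (et ℓ).Absolute H) := by
  obtain ⟨C₀, hC₀, hmain⟩ := main ε hε
  refine ⟨C₀, hC₀, fun B D v H J _ m n _ hH hm => ?_⟩
  obtain ⟨h1, h2⟩ := hmain B D v H J m n hH hm
  exact ⟨h1, fun dR et => ⟨h2 dR, fun ℓ => h2 (et ℓ)⟩⟩

end Pool.Agent.Results.MP_e2e4f5_ag.FermatTimesVarieties
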