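import Pool.Agent.Run7.h835.MT.AutProof

/-!
# The absolute Hodge conjecture, `ℓ`-adic part, for products of complex hyperkähler varieties

Let `X_1, …, X_r` be complex projective hyperkähler varieties of any deformation types, defined over the
finitely generated subfield `F` of the field of complex numbers (structure `Family`; the Mumford-Tate
conjecture for the sum of the `H²(X_t)`, the theorem of André and Commelin, is part of the data).

**Theorem.**

* For every prime `ℓ` there is a finite extension `F'` of `F` in the field of complex numbers such that
  the `ℓ`-adic part of the absolute Hodge conjecture is true for all products `Y` of copies of the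
  `X_t`, all degrees and all automorphisms `σ` of the field of complex numbers over `F'`: for these
  `Y_σ = Y`, and `(v^ℓ)_σ = v^ℓ` for all Hodge classes `v` of `Y`. (The automorphisms over `F` act
  through the absolute Galois group of `F`; the subgroup `Δ` can be replaced by the closed subgroup of all
  elements that fix all these classes.)
* For every automorphism `σ` of the field of complex numbers the products `Y` and `Y_σ` have the same
  number of linearly independent Hodge classes in every degree, and for all primes `ℓ` and all Hodge
  classes `v` of `Y` the class `(v^ℓ)_σ` is a linear combination with coefficients in `ℚ_ℓ` of Hodge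
  classes of `Y_σ`; if it is rational, it is a Hodge class.

The conjugate varieties and the isomorphisms `w ↦ w_σ` for all `ℓ` are the data `V'` and `P`.
-/

set_option autoImplicit false

namespace Pool.Agent.Results.MP_e2e4f5_ag.HyperkaehlerProducts

open Matrix Run7.h457.MT Run7.h869.HF Run7.h835.MT Pool.Agent.W401.Cheb

/-- **The `ℓ`-adic part of the absolute Hodge conjecture for products of hyperkähler varieties**, for all
automorphisms of the field of complex numbers over a finitely generated field, and the number of Hodge
classes of conjugate varieties. -/
theorem result {F : Type} [Field F] [CharZero F] {T : Type} [Fintype T] [DecidableEq T]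
    (V : Family F T) :
    (∀ (ℓ : ℕ) [Fact ℓ.Prime], ∃ Δ : Subgroup (GK F), Δ.FiniteIndex ∧
      ∀ (S : Type) [Fintype S] [DecidableEq S] (τ : S → T) (j : ℕ) (v : V.Ix τ (2 * j) → ℚ),
        Hodge V τ j v → ∀ γ ∈ Δ, V.galT τ ℓ j γ *ᵥ ladic ℓ v = ladic ℓ v) ∧
    ∀ (V' : Family F T) (P : Conjugate V V') (S : Type) [Fintype S] [DecidableEq S] (τ : S → T)
      (j : ℕ), (∀ m, HodgeDim V τ j m ↔ HodgeDim V' τ j m) ∧
      ∀ (ℓ : ℕ) [Fact ℓ.Prime] (v : V.Ix τ (2 * j) → ℚ), Hodge V τ j v →
        InSpanOf ℓ (Hodge V' τ j) (P.map τ ℓ j (ladic ℓ v)) ∧
        ∀ v' : V'.Ix τ (2 * j) → ℚ, P.map τ ℓ j (ladic ℓ v) = ladic ℓ v' → Hodge V' τ j v' :=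
  main_aut V

end Pool.Agent.Results.MP_e2e4f5_ag.HyperkaehlerProducts
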